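import Pool.Agent.W290.LG.Stm2

/-! LG-M (for project LG of helper290): meaning of the explicit system. -/

set_option autoImplicit false

namespace Pool.Agent.W675.LG

open Pool.Agent Pool.Agent.NPC Pool.Agent.H881R2.Mat Pool.Agent.W290.LG

/-- value of the variable with a given name -/
noncomputable def F (L : List (List ℕ)) (c : ℕ → ℕ → ℕ → ℚ) (a₀ a₁ a₂ a₃ a₄ a₅ : ℕ) : ℚ :=
  if a₀ = 0 then c a₁ a₂ a₃
  else if a₀ = 1 then c a₁ a₃ ((L[a₁]?.getD [])[a₅]?.getD 0) * c a₂ ((L[a₁]?.getD [])[a₅]?.getD 0) a₄
  else if a₀ = 2 then (((L[a₁]?.getD []).take a₅).map (fun k => c a₁ a₃ k * c a₂ k a₄)).sum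
  else if a₀ = 3 then (c a₁ a₂ a₃)⁻¹
  else if a₀ = 4 then 0
  else 1

/-- the assignment -/
noncomputable def vv (L : List (List ℕ)) (c : ℕ → ℕ → ℕ → ℚ) (N x : ℕ) : ℚ :=
  F L c (x / N / N / N / N / N) (x / N / N / N / N % N) (x / N / N / N % N) (x / N / N % N)
    (x / N % N) (x % N)

theorem dv (N p a : ℕ) (h : a < N) : (p * N + a) / N = p := by
  have hN : 0 < N := by omega
  rw [Nat.add_div_of_dvd_right (Dvd.intro_left p rfl), Nat.mul_div_cancel _ hN,
    Nat.div_eq_of_lt h, add_zero]

theorem md (N p a : ℕ) (h : a < N) : (p * N + a) % N = a := by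
  rw [Nat.mul_comm, Nat.mul_add_mod, Nat.mod_eq_of_lt h]

theorem vv_ix (L : List (List ℕ)) (c : ℕ → ℕ → ℕ → ℚ) (N a₀ a₁ a₂ a₃ a₄ a₅ : ℕ) (h1 : a₁ < N)
    (h2 : a₂ < N) (h3 : a₃ < N) (h4 : a₄ < N) (h5 : a₅ < N) :
    vv L c N (ix N a₀ a₁ a₂ a₃ a₄ a₅) = F L c a₀ a₁ a₂ a₃ a₄ a₅ := by
  unfold vv ix
  rw [dv _ _ _ h5, md _ _ _ h5, dv _ _ _ h4, md _ _ _ h4, dv _ _ _ h3, md _ _ _ h3, dv _ _ _ h2,
    md _ _ _ h2, dv _ _ _ h1, md _ _ _ h1]

theorem rad_pos (L : List (List ℕ)) : 0 < rad L := by unfold rad; omega

theorem b_lt {L : List (List ℕ)} {b : ℕ} {l : List ℕ} (h : L[b]? = some l) : b < rad L := by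
  have h1 : b < L.length := by
    by_contra hcon
    rw [List.getElem?_eq_none (by omega)] at h
    cases h
  unfold rad; omega

theorem j_lt {L : List (List ℕ)} {j : ℕ} (h : j ∈ L.flatten) : j < rad L := by
  have h1 : j ≤ L.flatten.sum := List.single_le_sum (fun _ _ => Nat.zero_le _) j h
  unfold rad; omega

theorem l_mem {L : List (List ℕ)} {b : ℕ} {l : List ℕ} (h : L[b]? = some l) : l ∈ L :=
  List.mem_of_getElem? h

theorem l_len {L : List (List ℕ)} {b : ℕ} {l : List ℕ} (h : L[b]? = some l) :
    l.length < rad L := by
  have h1 : l.length ≤ L.flatten.length := by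
    rw [List.length_flatten]
    exact List.single_le_sum (fun _ _ => Nat.zero_le _) _ (List.mem_map_of_mem (l_mem h))
  unfold rad; omega

theorem t_M : S_M := by
  intro L
  constructor
  · rintro ⟨v, hv⟩
    have hZ : v (vZ (rad L)) = 0 := by
      have := hv (ER.Con.add (vZ (rad L)) (vZ (rad L)) (vZ (rad L))) (by
        unfold sysL; simp)
      simp only [HoldsK] at this
      linarith
    have hO : v (vO (rad L)) = 1 := by
      have := hv (ER.Con.one (vO (rad L))) (by
        unfold sysL; simp)
      simpa only [HoldsK] using this
    have hEl : ∀ (b : ℕ) (l : List ℕ), L[b]? = some l → ∀ j ∈ L.flatten, ∀ k ∈ L.flatten,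
        ∀ e ∈ cEl L l b j k, HoldsK v e := by
      intro b l hb j hj k hk e he
      apply hv
      unfold sysL
      apply List.mem_append_right
      apply List.mem_append_left
      rw [List.mem_flatMap]
      refine ⟨(l, b), List.mem_zipIdx_iff_getElem?.mpr hb, ?_⟩
      rw [List.mem_flatMap]
      refine ⟨j, hj, ?_⟩
      rw [List.mem_flatMap]
      exact ⟨k, hk, he⟩
    have hTr : ∀ (b : ℕ) (l : List ℕ), L[b]? = some l → ∀ (b' : ℕ) (l' : List ℕ),
        L[b']? = some l' → ∀ j ∈ L.flatten, ∀ m ∈ L.flatten,
        ∀ e ∈ cTr L l b b' j m, HoldsK v e := by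
      intro b l hb b' l' hb' j hj m hm e he
      apply hv
      unfold sysL
      apply List.mem_append_right
      apply List.mem_append_right
      rw [List.mem_flatMap]
      refine ⟨(l, b), List.mem_zipIdx_iff_getElem?.mpr hb, ?_⟩
      rw [List.mem_flatMap]
      refine ⟨(l', b'), List.mem_zipIdx_iff_getElem?.mpr hb', ?_⟩
      rw [List.mem_flatMap]
      refine ⟨j, hj, ?_⟩
      rw [List.mem_flatMap]
      exact ⟨m, hm, he⟩
    have hfl : ∀ (b : ℕ) (l : List ℕ), L[b]? = some l → ∀ j ∈ l, j ∈ L.flatten := by
      intro b l hb j hj
      exact List.mem_flatten.mpr ⟨l, l_mem hb, hj⟩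
    refine ⟨fun b j k => v (vC (rad L) b j k), ?_, ?_, ?_, ?_⟩
    · intro b l hb j hj k hk hkl
      have := hEl b l hb j hj k hk
      unfold cEl at this
      rw [if_neg hkl] at this
      have h1 := this _ (List.mem_singleton.mpr rfl)
      simp only [HoldsK] at h1
      show v (vC (rad L) b j k) = 0
      linarith
    · intro b l hb j hj k hk
      have := hEl b l hb j (hfl b l hb j hj) k (hfl b l hb k hk)
      unfold cEl at this
      rw [if_pos hk, if_pos hj] at this
      show v (vC (rad L) b j k) = _
      by_cases hjk : j = k
      · rw [if_pos hjk] at this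
        rw [if_pos hjk]
        have h1 := this _ (List.mem_singleton.mpr rfl)
        simpa only [HoldsK] using h1
      · rw [if_neg hjk] at this
        rw [if_neg hjk]
        have h1 := this _ (List.mem_singleton.mpr rfl)
        simp only [HoldsK] at h1
        linarith
    · intro b l hb b' l' hb' j hj m hm
      have h := hTr b l hb b' l' hb' j hj m hm
      unfold cTr at h
      have h0 : v (vS (rad L) b b' j m 0) = 0 := by
        have := h (ER.Con.add (vS (rad L) b b' j m 0) (vS (rad L) b b' j m 0)
          (vS (rad L) b b' j m 0)) (by simp)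
        simp only [HoldsK] at this
        linarith
      have hlen : v (vS (rad L) b b' j m l.length) = v (vC (rad L) b' j m) := by
        have := h (ER.Con.add (vS (rad L) b b' j m l.length) (vZ (rad L)) (vC (rad L) b' j m))
          (by simp)
        simp only [HoldsK] at this
        linarith
      have hst : ∀ (k t : ℕ), l[t]? = some k →
          v (vS (rad L) b b' j m (t + 1)) = v (vS (rad L) b b' j m t) +
            v (vC (rad L) b j k) * v (vC (rad L) b' k m) := by
        intro k t hkt
        have hmem : (k, t) ∈ l.zipIdx := List.mem_zipIdx_iff_getElem?.mpr hkt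
        have e1 := h (ER.Con.mul (vC (rad L) b j k) (vC (rad L) b' k m)
          (vP (rad L) b b' j m t)) (by
            apply List.mem_append_right
            rw [List.mem_flatMap]
            exact ⟨(k, t), hmem, by simp⟩)
        have e2 := h (ER.Con.add (vS (rad L) b b' j m t) (vP (rad L) b b' j m t)
          (vS (rad L) b b' j m (t + 1))) (by
            apply List.mem_append_right
            rw [List.mem_flatMap]
            exact ⟨(k, t), hmem, by simp⟩)
        simp only [HoldsK] at e1 e2
        rw [← e2, e1]
      have hsum : ∀ t, t ≤ l.length → v (vS (rad L) b b' j m t) =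
          ((l.take t).map (fun k => v (vC (rad L) b j k) * v (vC (rad L) b' k m))).sum := by
        intro t
        induction t with
        | zero => intro _; rw [h0]; simp
        | succ t ih =>
          intro ht
          have hlt : t < l.length := by omega
          rw [hst l[t] t (List.getElem?_eq_getElem hlt), ih (by omega),
            List.take_succ_eq_append_getElem hlt, List.map_append, List.sum_append]
          simp
      have := hsum l.length (le_refl _)
      rw [List.take_length, hlen] at this
      exact this.symm
    · intro b l hb j hj hjl k hk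
      have := hEl b l hb j hj k (hfl b l hb k hk)
      unfold cEl at this
      rw [if_pos hk, if_neg hjl] at this
      show v (vC (rad L) b j k) ≠ 0 ↔ _
      by_cases hex : exch L l j k = true
      · rw [if_pos hex] at this
        have h1 := this _ (List.mem_singleton.mpr rfl)
        simp only [HoldsK] at h1
        rw [hO] at h1
        constructor
        · intro _; exact hex
        · intro _ h0
          rw [h0, zero_mul] at h1
          exact zero_ne_one h1
      · rw [if_neg hex] at this
        have h1 := this _ (List.mem_singleton.mpr rfl)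
        simp only [HoldsK] at h1
        constructor
        · intro h2
          exfalso
          apply h2
          linarith
        · intro h2
          exact absurd h2 hex
  · rintro ⟨c, hc⟩
    have hN := rad_pos L
    refine ⟨vv L c (rad L), ?_⟩
    have vC_eq : ∀ b j k, b < rad L → j < rad L → k < rad L →
        vv L c (rad L) (vC (rad L) b j k) = c b j k := by
      intro b j k hb hj hk
      unfold vC
      rw [vv_ix _ _ _ _ _ _ _ _ _ hb hj hk hN hN]
      simp [F]
    have vZ_eq : vv L c (rad L) (vZ (rad L)) = 0 := by
      unfold vZ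
      rw [vv_ix _ _ _ _ _ _ _ _ _ hN hN hN hN hN]
      simp [F]
    have vO_eq : vv L c (rad L) (vO (rad L)) = 1 := by
      unfold vO
      rw [vv_ix _ _ _ _ _ _ _ _ _ hN hN hN hN hN]
      simp [F]
    have vY_eq : ∀ b j k, b < rad L → j < rad L → k < rad L →
        vv L c (rad L) (vY (rad L) b j k) = (c b j k)⁻¹ := by
      intro b j k hb hj hk
      unfold vY
      rw [vv_ix _ _ _ _ _ _ _ _ _ hb hj hk hN hN]
      simp [F]
    have vS_eq : ∀ b l, L[b]? = some l → ∀ b' j m t, b < rad L → b' < rad L → j < rad L →
        m < rad L → t < rad L → vv L c (rad L) (vS (rad L) b b' j m t) =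
          ((l.take t).map (fun k => c b j k * c b' k m)).sum := by
      intro b l hbl b' j m t hb hb' hj hm ht
      unfold vS
      rw [vv_ix _ _ _ _ _ _ _ _ _ hb hb' hj hm ht]
      simp [F, hbl]
    have vP_eq : ∀ b l, L[b]? = some l → ∀ b' j m t k, l[t]? = some k → b < rad L →
        b' < rad L → j < rad L →
        m < rad L → t < rad L → vv L c (rad L) (vP (rad L) b b' j m t) =
          c b j k * c b' k m := by
      intro b l hbl b' j m t k hk hb hb' hj hm ht
      unfold vP
      rw [vv_ix _ _ _ _ _ _ _ _ _ hb hb' hj hm ht]
      simp [F, hbl, hk]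
    intro e he
    unfold sysL at he
    rw [List.mem_append, List.mem_append] at he
    rcases he with he | he | he
    · simp only [List.mem_cons, List.not_mem_nil, or_false] at he
      rcases he with rfl | rfl
      · simp only [HoldsK]
        rw [vZ_eq]; ring
      · simp only [HoldsK]
        exact vO_eq
    · rw [List.mem_flatMap] at he
      obtain ⟨⟨l, b⟩, hp, he⟩ := he
      rw [List.mem_flatMap] at he
      obtain ⟨j, hj, he⟩ := he
      rw [List.mem_flatMap] at he
      obtain ⟨k, hk, he⟩ := he
      have hbl : L[b]? = some l := List.mem_zipIdx_iff_getElem?.mp hp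
      have hb := b_lt hbl
      have hj' := j_lt hj
      have hk' := j_lt hk
      have hv := vC_eq b j k hb hj' hk'
      simp only at he
      unfold cEl at he
      by_cases hkl : k ∈ l
      · rw [if_pos hkl] at he
        by_cases hjl : j ∈ l
        · rw [if_pos hjl] at he
          have h1 := hc.one b l hbl j hjl k hkl
          by_cases hjk : j = k
          · rw [if_pos hjk, List.mem_singleton] at he
            rw [if_pos hjk] at h1
            rw [he]
            simp only [HoldsK]
            rw [hv, h1]
          · rw [if_neg hjk, List.mem_singleton] at he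
            rw [if_neg hjk] at h1
            rw [he]
            simp only [HoldsK]
            rw [hv, h1]; ring
        · rw [if_neg hjl] at he
          have h1 := hc.ex b l hbl j hj hjl k hkl
          by_cases hex : exch L l j k = true
          · rw [if_pos hex, List.mem_singleton] at he
            have h2 := h1.mpr hex
            rw [he]
            simp only [HoldsK]
            rw [hv, vY_eq b j k hb hj' hk', vO_eq]
            exact mul_inv_cancel₀ h2
          · rw [if_neg hex, List.mem_singleton] at he
            have h2 : c b j k = 0 := by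
              by_contra h3
              exact hex (h1.mp h3)
            rw [he]
            simp only [HoldsK]
            rw [hv, h2]; ring
      · rw [if_neg hkl, List.mem_singleton] at he
        have h1 := hc.zero b l hbl j hj k hk hkl
        rw [he]
        simp only [HoldsK]
        rw [hv, h1]; ring
    · rw [List.mem_flatMap] at he
      obtain ⟨⟨l, b⟩, hp, he⟩ := he
      rw [List.mem_flatMap] at he
      obtain ⟨⟨l', b'⟩, hp', he⟩ := he
      rw [List.mem_flatMap] at he
      obtain ⟨j, hj, he⟩ := he
      rw [List.mem_flatMap] at he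
      obtain ⟨m, hm, he⟩ := he
      have hbl : L[b]? = some l := List.mem_zipIdx_iff_getElem?.mp hp
      have hbl' : L[b']? = some l' := List.mem_zipIdx_iff_getElem?.mp hp'
      have hb := b_lt hbl
      have hb' := b_lt hbl'
      have hj' := j_lt hj
      have hm' := j_lt hm
      have hll := l_len hbl
      simp only at he
      unfold cTr at he
      rw [List.mem_append] at he
      rcases he with he | he
      · simp only [List.mem_cons, List.not_mem_nil, or_false] at he
        rcases he with rfl | rfl
        · simp only [HoldsK]
          rw [vS_eq b l hbl b' j m 0 hb hb' hj' hm' hN]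
          simp
        · simp only [HoldsK]
          rw [vS_eq b l hbl b' j m l.length hb hb' hj' hm' hll, vZ_eq, vC_eq b' j m hb' hj' hm',
            List.take_length, add_zero]
          exact hc.tr b l hbl b' l' hbl' j hj m hm
      · rw [List.mem_flatMap] at he
        obtain ⟨⟨k, t⟩, hq, he⟩ := he
        have hkt : l[t]? = some k := List.mem_zipIdx_iff_getElem?.mp hq
        have ht : t < l.length := by
          by_contra hcon
          rw [List.getElem?_eq_none (by omega)] at hkt
          cases hkt
        have hk : k ∈ L.flatten := List.mem_flatten.mpr ⟨l, l_mem hbl, List.mem_of_getElem? hkt⟩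
        have hk' := j_lt hk
        simp only [List.mem_cons, List.not_mem_nil, or_false] at he
        rcases he with rfl | rfl
        · simp only [HoldsK]
          rw [vC_eq b j k hb hj' hk', vC_eq b' k m hb' hk' hm',
            vP_eq b l hbl b' j m t k hkt hb hb' hj' hm' (by omega)]
        · simp only [HoldsK]
          rw [vS_eq b l hbl b' j m t hb hb' hj' hm' (by omega),
            vS_eq b l hbl b' j m (t + 1) hb hb' hj' hm' (by omega),
            vP_eq b l hbl b' j m t k hkt hb hb' hj' hm' (by omega)]
          have hlk : l[t] = k := by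
            rw [List.getElem?_eq_getElem ht] at hkt
            exact Option.some.inj hkt
          rw [List.take_succ_eq_append_getElem ht, List.map_append, List.sum_append, hlk]
          simp

end Pool.Agent.W675.LG
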